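import Pool.Agent.FU3.Stmts

/-!
Squad FU3, row SWC: counting the restrictions with a given code (switching lemma).
-/

set_option autoImplicit false

open Finset

namespace Pool.Agent.FU3.H10

open Pool.Agent.FUR Pool.Agent.FU2 Pool.Agent.FU3

variable {N : ℕ}

/-- inversion -/
theorem enc_inv {F : List (RS N)} {s : ℕ} {r r' : RS N} (h : Enc F s r r') :
    (s = 0 ∧ r = r') ∨ ∃ (s' : ℕ) (r'' : RS N) (A : List (RS N)) (t : RS N) (C : List (RS N))
      (J : Finset (Fin N)) (π : Fin N → Bool), F = A ++ t :: C ∧ (∀ a ∈ A, Fal a r) ∧ ¬ Fal t r ∧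
        J.Nonempty ∧ (∀ v ∈ J, t v ≠ none ∧ r v = none) ∧
        (s' = 0 ∨ ∀ v, t v ≠ none → r v = none → v ∈ J) ∧
        Enc F s' (put J (fun v => some (π v)) r) r'' ∧ s = s' + J.card ∧ r' = put J t r'' := by
  cases h with
  | zero => exact Or.inl ⟨rfl, rfl⟩
  | step A t C hF hA ht J hJ hJs hall π h =>
    exact Or.inr ⟨_, _, A, t, C, J, π, hF, hA, ht, hJ, hJs, hall, h, rfl, rfl⟩

theorem enc_zero {F : List (RS N)} {r r' : RS N} (h : Enc F 0 r r') : r = r' := by
  rcases enc_inv h with ⟨_, h1⟩ | ⟨s', r'', A, t, C, J, π, _, _, _, hJ, _, _, _, hs, _⟩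
  · exact h1
  · have := hJ.card_pos
    omega

/-- uniqueness of the first element without the property -/
theorem uniq {α : Type} {P : α → Prop} : ∀ (A A' : List α) (t t' : α) (C C' : List α),
    A ++ t :: C = A' ++ t' :: C' → (∀ a ∈ A, P a) → ¬ P t → (∀ a ∈ A', P a) → ¬ P t' → t = t'
  | [], [], t, t', C, C', h, _, _, _, _ => by
    simp only [List.nil_append, List.cons.injEq] at h
    exact h.1
  | [], a :: A', t, t', C, C', h, _, h2, h3, _ => by
    simp only [List.nil_append, List.cons_append, List.cons.injEq] at h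
    exact absurd (h3 a List.mem_cons_self) (h.1 ▸ h2)
  | a :: A, [], t, t', C, C', h, h1, _, _, h4 => by
    simp only [List.nil_append, List.cons_append, List.cons.injEq] at h
    exact absurd (h1 a List.mem_cons_self) (h.1 ▸ h4)
  | a :: A, a' :: A', t, t', C, C', h, h1, h2, h3, h4 => by
    simp only [List.cons_append, List.cons.injEq] at h
    exact uniq A A' t t' C C' h.2 (fun x hx => h1 x (List.mem_cons_of_mem _ hx)) h2
      (fun x hx => h3 x (List.mem_cons_of_mem _ hx)) h4

theorem sum_geom (a s : ℕ) :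
    ∑ j ∈ Finset.range s, a ^ (j + 1) * (2 * a) ^ (s - (j + 1)) ≤ (2 * a) ^ s := by
  have h1 : ∀ j ∈ Finset.range s, a ^ (j + 1) * (2 * a) ^ (s - (j + 1)) =
      a ^ s * 2 ^ (s - 1 - j) := by
    intro j hj
    have hj' := Finset.mem_range.1 hj
    have h2 : s - (j + 1) = s - 1 - j := by omega
    rw [h2, mul_pow, mul_left_comm, ← pow_add]
    have h3 : j + 1 + (s - 1 - j) = s := by omega
    rw [h3]
    exact mul_comm _ _
  rw [Finset.sum_congr rfl h1, ← Finset.mul_sum, Finset.sum_range_reflect (fun j => 2 ^ j) s]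
  have h4 : ∀ n : ℕ, ∑ j ∈ Finset.range n, 2 ^ j ≤ 2 ^ n := by
    intro n
    have h5 : ∀ n : ℕ, ∑ j ∈ Finset.range n, 2 ^ j + 1 = 2 ^ n := by
      intro n
      induction n with
      | zero => simp
      | succ n ih =>
        rw [Finset.sum_range_succ, pow_succ]
        omega
    have := h5 n
    omega
  calc a ^ s * ∑ j ∈ Finset.range s, 2 ^ j ≤ a ^ s * 2 ^ s := Nat.mul_le_mul_left _ (h4 s)
    _ = (2 * a) ^ s := by rw [mul_pow, mul_comm]

/-- SWC -/
theorem swc (enp : ENPStmt) : SWCStmt := by
  intro N F w s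
  induction s using Nat.strong_induction_on with
  | _ s IH =>
  intro r' hw hF
  rcases Nat.eq_zero_or_pos s with hs | hs
  · subst hs
    have h1 : {r : RS N | Enc F 0 r r'} ⊆ {r'} := fun r hr => enc_zero hr
    calc {r : RS N | Enc F 0 r r'}.ncard ≤ ({r'} : Set (RS N)).ncard :=
          Set.ncard_le_ncard h1 (Set.finite_singleton _)
      _ = 1 := Set.ncard_singleton _
      _ ≤ (4 * w) ^ 0 := (pow_zero _).ge
  -- the first term which is not falsified by `r'`
  have key : ∀ (s' : ℕ) (r r'' : RS N) (A : List (RS N)) (t : RS N) (C : List (RS N))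
      (J : Finset (Fin N)) (π : Fin N → Bool), Enc F s r r' → F = A ++ t :: C →
      (∀ a ∈ A, Fal a r) → ¬ Fal t r → (s' = 0 ∨ ∀ v, t v ≠ none → r v = none → v ∈ J) →
      Enc F s' (put J (fun v => some (π v)) r) r'' → r' = put J t r'' →
      (∀ a ∈ A, Fal a r') ∧ ¬ Fal t r' := by
    intro s' r r'' A t C J π h hAC hA ht hall h' hr'
    have hext := (enp N F s r r' h).1
    refine ⟨fun a ha => ?_, ?_⟩
    · obtain ⟨v, b, h1, h2⟩ := hA a ha
      refine ⟨v, b, h1, ?_⟩
      rw [hext v (by rw [h2]; exact Option.some_ne_none _), h2]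
    · rintro ⟨v, b, h1, h2⟩
      by_cases hvJ : v ∈ J
      · have h3 : r' v = t v := by
          rw [hr']
          exact if_pos hvJ
        rw [h3, h1] at h2
        have := Option.some.inj h2
        cases b <;> simp at this
      · have h3 : r' v = r'' v := by
          rw [hr']
          exact if_neg hvJ
        by_cases hrv : r v = none
        · rcases hall with h0 | h0
          · subst h0
            have h4 := enc_zero h'
            rw [h3, ← h4] at h2
            have h5 : put J (fun v => some (π v)) r v = r v := if_neg hvJ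
            rw [h5, hrv] at h2
            exact absurd h2.symm (Option.some_ne_none _)
          · exact hvJ (h0 v (by rw [h1]; exact Option.some_ne_none _) hrv)
        · exact ht ⟨v, b, h1, by rw [← hext v hrv, h2]⟩
  by_cases hne : ∃ r, Enc F s r r'
  swap
  · have h1 : {r : RS N | Enc F s r r'} = ∅ := by
      ext r
      simp only [Set.mem_ofPred_eq, Set.mem_empty_iff_false, iff_false]
      exact fun h => hne ⟨r, h⟩
    rw [h1, Set.ncard_empty]
    exact Nat.zero_le _
  obtain ⟨r₀, hr₀⟩ := hne
  obtain ⟨t₀, ht₀F, ht₀⟩ : ∃ t₀ ∈ F, ∀ (A : List (RS N)) (t : RS N) (C : List (RS N)),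
      F = A ++ t :: C → (∀ a ∈ A, Fal a r') → ¬ Fal t r' → t = t₀ := by
    rcases enc_inv hr₀ with ⟨h1, _⟩ | ⟨s', r'', A, t, C, J, π, hAC, hA, ht, hJ, hJs, hall, h, hss, hr'⟩
    · omega
    · refine ⟨t, ?_, ?_⟩
      · rw [hAC]
        exact List.mem_append_right _ List.mem_cons_self
      · intro A₁ t₁ C₁ h1 h2 h3
        obtain ⟨h4, h5⟩ := key s' r₀ r'' A t C J π hr₀ hAC hA ht hall h hr'
        exact uniq (P := fun a => Fal a r') A₁ A t₁ t C₁ C (h1.symm.trans hAC) h2 h3 h4 h5
  -- the covering
  have hcov : {r : RS N | Enc F s r r'} ⊆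
      ⋃ J ∈ (supp t₀).powerset.filter (fun J => 1 ≤ J.card ∧ J.card ≤ s), ⋃ B ∈ J.powerset,
        (fun r₁ : RS N => put J (fun _ => none) r₁) ''
          {r₁ : RS N | Enc F (s - J.card) r₁ (put J (fun v => some (decide (v ∈ B))) r')} := by
    intro r hr
    rcases enc_inv hr with ⟨h1, _⟩ | ⟨s', r'', A, t, C, J, π, hAC, hA, ht, hJ, hJs, hall, h, hss, hr'⟩
    · omega
    · obtain ⟨h4, h5⟩ := key s' r r'' A t C J π hr hAC hA ht hall h hr'
      have htt : t = t₀ := ht₀ A t C hAC h4 h5
      subst htt
      have hJpos := hJ.card_pos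
      simp only [Set.mem_iUnion]
      refine ⟨J, ?_, J.filter (fun v => π v = true), ?_, put J (fun v => some (π v)) r, ?_, ?_⟩
      · rw [Finset.mem_filter, Finset.mem_powerset]
        refine ⟨fun v hv => ?_, by omega, by omega⟩
        rw [supp, Finset.mem_filter]
        exact ⟨Finset.mem_univ _, (hJs v hv).1⟩
      · exact Finset.mem_powerset.2 (Finset.filter_subset _ _)
      · have h6 : s - J.card = s' := by omega
        have h7 : put J (fun v => some (decide (v ∈ J.filter (fun v => π v = true)))) r' = r'' := by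
          funext v
          by_cases hv : v ∈ J
          · have h8 : put J (fun v => some (decide (v ∈ J.filter (fun v => π v = true)))) r' v =
              some (decide (v ∈ J.filter (fun v => π v = true))) := if_pos hv
            have h9 : put J (fun v => some (π v)) r v = some (π v) := if_pos hv
            have h10 := (enp N F s' _ _ h).1 v (by rw [h9]; exact Option.some_ne_none _)
            rw [h8, h10, h9]
            congr 1
            by_cases hπ : π v = true
            · rw [hπ]
              exact decide_eq_true (Finset.mem_filter.2 ⟨hv, hπ⟩)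
            · have hπ' : π v = false := by simpa using hπ
              rw [hπ']
              exact decide_eq_false (fun h => hπ (Finset.mem_filter.1 h).2)
          · have h8 : put J (fun v => some (decide (v ∈ J.filter (fun v => π v = true)))) r' v =
              r' v := if_neg hv
            rw [h8, hr']
            exact if_neg hv
        show Enc F (s - J.card) _ _
        rw [h6, h7]
        exact h
      · funext v
        by_cases hv : v ∈ J
        · have h8 : put J (fun _ => none) (put J (fun v => some (π v)) r) v = none := if_pos hv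
          exact h8.trans (hJs v hv).2.symm
        · have h8 : put J (fun _ => none) (put J (fun v => some (π v)) r) v =
            put J (fun v => some (π v)) r v := if_neg hv
          have h9 : put J (fun v => some (π v)) r v = r v := if_neg hv
          exact h8.trans h9
  have hfin : ∀ S : Set (RS N), S.Finite := fun S => Set.toFinite S
  -- the bound
  have hbound : ∀ J ∈ (supp t₀).powerset.filter (fun J => 1 ≤ J.card ∧ J.card ≤ s),
      (⋃ B ∈ J.powerset, (fun r₁ : RS N => put J (fun _ => none) r₁) ''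
        {r₁ : RS N | Enc F (s - J.card) r₁ (put J (fun v => some (decide (v ∈ B))) r')}).ncard ≤
      2 ^ J.card * (4 * w) ^ (s - J.card) := by
    intro J hJ
    have hJ' := (Finset.mem_filter.1 hJ).2
    refine (Finset.set_ncard_biUnion_le _ _).trans ?_
    rw [← Finset.card_powerset, ← smul_eq_mul]
    refine Finset.sum_le_card_nsmul _ _ _ (fun B _ => ?_)
    exact (Set.ncard_image_le (hfin _)).trans (IH (s - J.card) (by omega) _ hw hF)
  have hsum : {r : RS N | Enc F s r r'}.ncard ≤
      ∑ J ∈ (supp t₀).powerset.filter (fun J => 1 ≤ J.card ∧ J.card ≤ s),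
        2 ^ J.card * (4 * w) ^ (s - J.card) :=
    ((Set.ncard_le_ncard hcov (hfin _)).trans (Finset.set_ncard_biUnion_le _ _)).trans
      (Finset.sum_le_sum hbound)
  refine hsum.trans ?_
  -- group by the number of elements
  have hmap : ∀ J ∈ (supp t₀).powerset.filter (fun J => 1 ≤ J.card ∧ J.card ≤ s),
      J.card - 1 ∈ Finset.range s := by
    intro J hJ
    have := (Finset.mem_filter.1 hJ).2
    exact Finset.mem_range.2 (by omega)
  rw [← Finset.sum_fiberwise_of_maps_to hmap]
  refine le_trans (Finset.sum_le_sum (fun j hj => ?_)) ((sum_geom (2 * w) s).trans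
    (le_of_eq (by ring)))
  have hj' := Finset.mem_range.1 hj
  have h1 : ∀ J ∈ ((supp t₀).powerset.filter (fun J => 1 ≤ J.card ∧ J.card ≤ s)).filter
      (fun J => J.card - 1 = j), 2 ^ J.card * (4 * w) ^ (s - J.card) ≤
      2 ^ (j + 1) * (4 * w) ^ (s - (j + 1)) := by
    intro J hJ
    have h2 := (Finset.mem_filter.1 hJ).2
    have h3 := (Finset.mem_filter.1 (Finset.mem_filter.1 hJ).1).2
    have h4 : J.card = j + 1 := by omega
    rw [h4]
  refine (Finset.sum_le_card_nsmul _ _ _ h1).trans ?_
  have h2 : (((supp t₀).powerset.filter (fun J => 1 ≤ J.card ∧ J.card ≤ s)).filter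
      (fun J => J.card - 1 = j)).card ≤ w ^ (j + 1) := by
    calc (((supp t₀).powerset.filter (fun J => 1 ≤ J.card ∧ J.card ≤ s)).filter
        (fun J => J.card - 1 = j)).card ≤ (Finset.powersetCard (j + 1) (supp t₀)).card := by
          refine Finset.card_le_card (fun J hJ => ?_)
          have h3 := (Finset.mem_filter.1 hJ).2
          have h4 := (Finset.mem_filter.1 (Finset.mem_filter.1 hJ).1)
          rw [Finset.mem_powersetCard]
          exact ⟨Finset.mem_powerset.1 h4.1, by omega⟩
      _ = (supp t₀).card.choose (j + 1) := Finset.card_powersetCard _ _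
      _ ≤ (supp t₀).card ^ (j + 1) := Nat.choose_le_pow _ _
      _ ≤ w ^ (j + 1) := Nat.pow_le_pow_left (hF t₀ ht₀F) _
  rw [smul_eq_mul]
  calc (((supp t₀).powerset.filter (fun J => 1 ≤ J.card ∧ J.card ≤ s)).filter
      (fun J => J.card - 1 = j)).card * (2 ^ (j + 1) * (4 * w) ^ (s - (j + 1)))
      ≤ w ^ (j + 1) * (2 ^ (j + 1) * (4 * w) ^ (s - (j + 1))) := Nat.mul_le_mul_right _ h2
    _ = (2 * w) ^ (j + 1) * (2 * (2 * w)) ^ (s - (j + 1)) := by
      rw [mul_pow 2 w (j + 1), show 2 * (2 * w) = 4 * w by ring]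
      ring

end Pool.Agent.FU3.H10
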